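import Pool.Agent.Helper71.P4.St

/-!
# Project P4, module NP: the numbers for `n ≥ 8`
-/

set_option autoImplicit false

open MeasureTheory Set Filter Topology
open scoped ENNReal

noncomputable section

namespace Helper71.P4

open Helper69.CR

private theorem cn_succ_NP (n : ℕ) (a : ℝ) :
    Cn (n + 1) a = Cn n a * (((n : ℝ) + 1 - a) / ((n : ℝ) + a)) := by
  unfold Cn
  rw [Finset.prod_range_succ]

private theorem poly_NP (m : ℝ) (hm : 0 ≤ m) :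
    (8 + m + 1 / 8) ^ 4 * (9 + m + 1 / 100) ^ 3 ≤ (8 + m + 7 / 8) ^ 4 * (8 + m + 1 / 100) ^ 3 := by
  have e : (8 + m + 7 / 8) ^ 4 * (8 + m + 1 / 100) ^ 3 - (8 + m + 1 / 8) ^ 4 * (9 + m + 1 / 100) ^ 3 =
      775313669489 / 1024000000 + 65694161461 / 128000000 * m + 8751051321 / 64000000 * m ^ 2 +
        71844737 / 4000000 * m ^ 3 + 46649 / 40000 * m ^ 4 + 3 / 100 * m ^ 5 := by ring
  have p : 0 ≤ 775313669489 / 1024000000 + 65694161461 / 128000000 * m +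
      8751051321 / 64000000 * m ^ 2 +
        71844737 / 4000000 * m ^ 3 + 46649 / 40000 * m ^ 4 + 3 / 100 * m ^ 5 := by positivity
  linarith

private theorem cn_low_NP (m : ℕ) :
    0 < Cn (8 + m) (1 / 8) ∧
      2278 * ((8 : ℝ) + m + 1 / 100) ^ 3 ≤ Cn (8 + m) (1 / 8) ^ 4 := by
  induction m with
  | zero =>
    have e : Cn (8 + 0) (1 / 8) = 7 / 1 * (15 / 9) * (23 / 17) * (31 / 25) * (39 / 33) * (47 / 41) *
        (55 / 49) * (63 / 57) := by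
      unfold Cn
      simp only [Finset.prod_range_succ, Finset.prod_range_zero]
      norm_num
    rw [e]
    constructor
    · norm_num
    · norm_num
  | succ m ih =>
    obtain ⟨h0, h1⟩ := ih
    have e : Cn (8 + (m + 1)) (1 / 8) =
        Cn (8 + m) (1 / 8) * (((8 : ℝ) + m + 7 / 8) / ((8 : ℝ) + m + 1 / 8)) := by
      have := cn_succ_NP (8 + m) (1 / 8)
      rw [show 8 + (m + 1) = 8 + m + 1 by omega, this]
      push_cast
      congr 2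
      ring
    have hm : (0 : ℝ) ≤ m := Nat.cast_nonneg m
    have q0 : (0 : ℝ) < 8 + m + 1 / 8 := by positivity
    have q1 : (0 : ℝ) < 8 + m + 7 / 8 := by positivity
    have q2 : (0 : ℝ) < 8 + m + 1 / 100 := by positivity
    rw [e]
    refine ⟨mul_pos h0 (div_pos q1 q0), ?_⟩
    rw [mul_pow, div_pow, mul_div_assoc', le_div_iff₀ (by positivity)]
    have p := poly_NP m hm
    have c : (((m + 1 : ℕ) : ℝ)) = (m : ℝ) + 1 := by push_cast; ring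
    rw [c]
    calc 2278 * (8 + ((m : ℝ) + 1) + 1 / 100) ^ 3 * (8 + (m : ℝ) + 1 / 8) ^ 4
        = 2278 * ((8 + (m : ℝ) + 1 / 8) ^ 4 * (9 + (m : ℝ) + 1 / 100) ^ 3) := by ring
      _ ≤ 2278 * ((8 + (m : ℝ) + 7 / 8) ^ 4 * (8 + (m : ℝ) + 1 / 100) ^ 3) :=
          mul_le_mul_of_nonneg_left p (by norm_num)
      _ = 2278 * (8 + (m : ℝ) + 1 / 100) ^ 3 * (8 + (m : ℝ) + 7 / 8) ^ 4 := by ring
      _ ≤ Cn (8 + m) (1 / 8) ^ 4 * (8 + (m : ℝ) + 7 / 8) ^ 4 :=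
          mul_le_mul_of_nonneg_right h1 (by positivity)

private theorem cn_ge_NP (n : ℕ) (hn : 8 ≤ n) :
    69 / 10 * (n : ℝ) ^ ((3 / 4) : ℝ) ≤ Cn n (1 / 8) := by
  obtain ⟨m, rfl⟩ := Nat.exists_eq_add_of_le hn
  obtain ⟨h0, h1⟩ := cn_low_NP m
  have hm : (0 : ℝ) ≤ m := Nat.cast_nonneg m
  have c : (((8 + m : ℕ) : ℝ)) = 8 + (m : ℝ) := by push_cast; ring
  rw [c]
  have x0 : (0 : ℝ) < 8 + m := by positivity
  have y4 : ((8 + (m : ℝ)) ^ ((3 / 4) : ℝ)) ^ 4 = (8 + (m : ℝ)) ^ 3 := by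
    rw [← Real.rpow_natCast, ← Real.rpow_mul x0.le]
    norm_num
  refine le_of_pow_le_pow_left₀ (n := 4) (by norm_num) h0.le ?_
  rw [mul_pow, y4]
  have h2 : (8 + (m : ℝ)) ^ 3 ≤ (8 + (m : ℝ) + 1 / 100) ^ 3 :=
    pow_le_pow_left₀ x0.le (by linarith) 3
  have h3 : ((69 : ℝ) / 10) ^ 4 ≤ 2278 := by norm_num
  calc ((69 : ℝ) / 10) ^ 4 * (8 + (m : ℝ)) ^ 3 ≤ 2278 * (8 + (m : ℝ)) ^ 3 :=
        mul_le_mul_of_nonneg_right h3 (by positivity)
    _ ≤ 2278 * (8 + (m : ℝ) + 1 / 100) ^ 3 := mul_le_mul_of_nonneg_left h2 (by norm_num)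
    _ ≤ _ := h1

/-- The numbers for `n ≥ 8`. -/
theorem hNP : StNM → StNP := by
  intro hNM n p hn hp
  have x8 : (8 : ℝ) ≤ n := by exact_mod_cast hn
  have x0 : (0 : ℝ) < n := by linarith
  have p0 : (0 : ℝ) < p := by linarith
  set x : ℝ := (n : ℝ) with hx
  set θ : ℝ := 1 - 2 / p with hθ
  have t1 : 3 / 4 ≤ θ := by
    rw [hθ]
    have : 2 / p ≤ 1 / 4 := by rw [div_le_div_iff₀ p0 (by norm_num)]; linarith
    linarith
  have t0 : 0 ≤ θ := by linarith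
  -- the constant `K`
  have s0 := Real.sqrt_nonneg x
  have s2 := Real.sq_sqrt x0.le
  have s1 : Real.sqrt x ≤ (x + 9) / 6 := by
    have := sq_nonneg (Real.sqrt x - 3)
    linarith
  have k0 : 0 ≤ 1 + 37 / 10 * Real.sqrt x + 4 * x := by positivity
  have k1 : 1 + 37 / 10 * Real.sqrt x + 4 * x ≤ 18 / 25 * x ^ 2 := by
    have : 8 * x ≤ x ^ 2 := by rw [sq]; exact mul_le_mul_of_nonneg_right x8 x0.le
    linarith
  have a1 : (1 + 37 / 10 * Real.sqrt x + 4 * x) ^ θ ≤ (18 / 25 * x ^ 2) ^ θ :=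
    Real.rpow_le_rpow k0 k1 t0
  have a2 : (18 / 25 * x ^ 2) ^ θ = (18 / 25) ^ θ * (x ^ θ) ^ 2 := by
    rw [Real.mul_rpow (by norm_num) (by positivity), ← Real.rpow_natCast, ← Real.rpow_natCast,
      ← Real.rpow_mul x0.le, ← Real.rpow_mul x0.le, mul_comm ((2 : ℕ) : ℝ) θ]
  have a3 : ((18 : ℝ) / 25) ^ θ ≤ (18 / 25) ^ ((3 / 4) : ℝ) :=
    Real.rpow_le_rpow_of_exponent_ge (by norm_num) (by norm_num) t1
  have a4 : ((18 : ℝ) / 25) ^ ((3 / 4) : ℝ) ≤ 157 / 200 := by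
    refine le_of_pow_le_pow_left₀ (n := 4) (by norm_num) (by norm_num) ?_
    have : (((18 : ℝ) / 25) ^ ((3 / 4) : ℝ)) ^ 4 = (18 / 25) ^ 3 := by
      rw [← Real.rpow_natCast, ← Real.rpow_mul (by norm_num)]
      norm_num
    rw [this]
    norm_num
  -- the constant `C_n`
  have b0 := cn_ge_NP n hn
  have b1 := hNM n p (by omega) hp
  have y0 : 0 < x ^ ((3 / 4) : ℝ) := Real.rpow_pos_of_pos x0 _
  have z0 : 0 < x ^ θ := Real.rpow_pos_of_pos x0 _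
  have b2 : 69 / 70 ≤ Cn n (1 / 8) / (7 * x ^ ((3 / 4) : ℝ)) := by
    rw [le_div_iff₀ (by positivity)]
    linarith
  have b3 : 69 / 70 * ((p - 1) * x ^ θ) ≤ Cn n (1 / p) := by
    have h := le_trans b2 b1
    rwa [le_div_iff₀ (mul_pos (by linarith) z0)] at h
  have b4 : (69 / 70 * ((p - 1) * x ^ θ)) ^ 2 ≤ Cn n (1 / p) ^ 2 :=
    pow_le_pow_left₀ (mul_nonneg (by norm_num) (mul_nonneg (by linarith) z0.le)) b3 2
  have c1 : 157 / 200 * p ^ 2 ≤ 132 / 125 * ((69 / 70) ^ 2 * (p - 1) ^ 2) := by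
    have h1 : (7 * p) ^ 2 ≤ (8 * (p - 1)) ^ 2 := pow_le_pow_left₀ (by linarith) (by linarith) 2
    have h2 : 0 ≤ p ^ 2 := sq_nonneg p
    have h3 : 49 / 64 * p ^ 2 ≤ (p - 1) ^ 2 := by
      have e1 : (7 * p) ^ 2 = 49 * p ^ 2 := by ring
      have e2 : (8 * (p - 1)) ^ 2 = 64 * (p - 1) ^ 2 := by ring
      rw [e1, e2] at h1
      linarith
    have h4 := mul_le_mul_of_nonneg_left h3 (show (0 : ℝ) ≤ 132 / 125 * (69 / 70) ^ 2 by positivity)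
    norm_num at h4 ⊢
    linarith
  have c2 : 157 / 200 ≤ 132 / 125 / p ^ 2 * ((69 / 70) ^ 2 * (p - 1) ^ 2) := by
    rw [div_mul_eq_mul_div, le_div_iff₀ (by positivity)]
    exact c1
  have z2 : 0 ≤ (x ^ θ) ^ 2 := by positivity
  calc (1 + 37 / 10 * Real.sqrt x + 4 * x) ^ θ ≤ (18 / 25) ^ θ * (x ^ θ) ^ 2 := by
        rw [← a2]; exact a1
    _ ≤ 157 / 200 * (x ^ θ) ^ 2 := mul_le_mul_of_nonneg_right (a3.trans a4) z2
    _ ≤ 132 / 125 / p ^ 2 * ((69 / 70) ^ 2 * (p - 1) ^ 2) * (x ^ θ) ^ 2 :=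
        mul_le_mul_of_nonneg_right c2 z2
    _ = 132 / 125 / p ^ 2 * (69 / 70 * ((p - 1) * x ^ θ)) ^ 2 := by ring
    _ ≤ 132 / 125 / p ^ 2 * Cn n (1 / p) ^ 2 :=
        mul_le_mul_of_nonneg_left b4 (by positivity)

end Helper71.P4
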